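import Pool.Agent.Helper9.MP.Lib

/-!
# MP_bde085_nt, module AMPD: the dimension of an eigenspace of one Hecke operator
-/

set_option autoImplicit false

namespace Pool.Agent.Helper96.MP

open Complex MeasureTheory Filter Topology
open scoped MatrixGroups

theorem ampd_isClosed_SB : IsClosed SB := by
  have h1 : IsClosed {z : ℂ | |z.re| ≤ 1 / 2} :=
    isClosed_le (continuous_abs.comp Complex.continuous_re) continuous_const
  have h2 : IsClosed {z : ℂ | (4 : ℝ) / 5 ≤ z.im} := isClosed_le continuous_const Complex.continuous_im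
  exact h1.inter h2

theorem ampd_qs_add {N : ℕ} {b b' : ℕ → ℂ} (hb : Cusp N b) (hb' : Cusp N b') {τ : ℂ}
    (hτ : τ ∈ UH) : qs (b + b') τ = qs b τ + qs b' τ := by
  unfold qs
  rw [← (hb.sum τ hτ).tsum_add (hb'.sum τ hτ)]
  refine tsum_congr fun k => ?_
  rw [Pi.add_apply]
  ring

theorem ampd_qs_smul (c : ℂ) (b : ℕ → ℂ) (τ : ℂ) : qs (c • b) τ = c * qs b τ := by
  unfold qs
  rw [← tsum_mul_left]
  refine tsum_congr fun k => ?_
  rw [Pi.smul_apply, smul_eq_mul]
  ring

/-- the weight two slash, extended by zero -/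
noncomputable def ampdF (N : ℕ) (b : ℕ → ℂ) (x : PN N) : ℂ → ℂ :=
  UH.indicator (fun z => qs b (mob (rep N x) z) / jj (rep N x) z ^ 2)

theorem ampdF_mem (N : ℕ) (b : ℕ → ℂ) (x : PN N) {z : ℂ} (hz : z ∈ UH) :
    ampdF N b x z = qs b (mob (rep N x) z) / jj (rep N x) z ^ 2 := Set.indicator_of_mem hz _

theorem ampdF_not (N : ℕ) (b : ℕ → ℂ) (x : PN N) {z : ℂ} (hz : z ∉ UH) :
    ampdF N b x z = 0 := Set.indicator_of_notMem hz _

/-- the linear map of the module DIMK -/
noncomputable def ampdPhi (N : ℕ) (S : Submodule ℂ (ℕ → ℂ)) (hS : ∀ b ∈ S, Cusp N b) :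
    S →ₗ[ℂ] (PN N → ℂ → ℂ) where
  toFun b := ampdF N b.1
  map_add' := by
    intro b b'
    funext x z
    change ampdF N (b.1 + b'.1) x z = ampdF N b.1 x z + ampdF N b'.1 x z
    by_cases hz : z ∈ UH
    · rw [ampdF_mem N _ x hz, ampdF_mem N _ x hz, ampdF_mem N _ x hz,
        ampd_qs_add (hS _ b.2) (hS _ b'.2) (Lib.mob_mem _ hz), add_div]
    · rw [ampdF_not N _ x hz, ampdF_not N _ x hz, ampdF_not N _ x hz, add_zero]
  map_smul' := by
    intro c b
    funext x z
    change ampdF N (c • b.1) x z = c * ampdF N b.1 x z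
    by_cases hz : z ∈ UH
    · rw [ampdF_mem N _ x hz, ampdF_mem N _ x hz, ampd_qs_smul, mul_div_assoc]
    · rw [ampdF_not N _ x hz, ampdF_not N _ x hz, mul_zero]

theorem ampdPhi_of_mem {N : ℕ} {S : Submodule ℂ (ℕ → ℂ)} (hS : ∀ b ∈ S, Cusp N b) (b : S)
    (x : PN N) {z : ℂ} (hz : z ∈ UH) :
    ampdPhi N S hS b x z = qs b.1 (mob (rep N x) z) / jj (rep N x) z ^ 2 :=
  ampdF_mem N b.1 x hz

theorem ampdPhi_norm {N : ℕ} {S : Submodule ℂ (ℕ → ℂ)} (hS : ∀ b ∈ S, Cusp N b) (b : S)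
    (x : PN N) {z : ℂ} (hz : z ∈ UH) :
    ‖ampdPhi N S hS b x z‖ ^ 2 = gsq b.1 (rep N x) z := by
  rw [ampdPhi_of_mem hS b x hz, norm_div, norm_pow, div_pow, ← pow_mul]
  rfl

theorem ampd_dim (hDIMK : ST_DIMK) (hNRM : ST_NRM) (hCOS : ST_COS) (hQDIF : ST_QDIF)
    (hQUNI : ST_QUNI) {N : ℕ} (hN : 1 ≤ N) [Fintype (PN N)] (S : Submodule ℂ (ℕ → ℂ))
    [FiniteDimensional ℂ S] (hS : ∀ b ∈ S, Cusp N b) (κ : PN N → ℂ → ℝ)
    (hκ : ∀ x, IntegrableOn (κ x) SB) (hκ0 : ∀ x, ∀ z ∈ SB, 0 ≤ κ x z)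
    (hb : ∀ b ∈ S, ∀ x, ∀ z ∈ SB, gsq b (rep N x) z ≤ κ x z * nrm N b) :
    (Module.finrank ℂ S : ℝ) ≤ ∑ x, ∫ z in SB, κ x z := by
  have hSBm : MeasurableSet SB := ampd_isClosed_SB.measurableSet
  refine hDIMK (PN N) S (ampdPhi N S hS) SB κ hSBm ?_ ?_ hκ hκ0 ?_ ?_
  · intro v x
    have hd := (hQDIF N v.1 hN (hS _ v.2)).2.1
    have h1 : ContinuousOn (fun z => qs v.1 (mob (rep N x) z) / jj (rep N x) z ^ 2) UH := by
      refine ContinuousOn.div ?_ ?_ ?_
      · exact hd.continuousOn.comp (Lib.continuousOn_mob _) (fun z hz => Lib.mob_mem _ hz)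
      · refine ContinuousOn.pow ?_ 2
        unfold jj
        fun_prop
      · intro z hz
        exact pow_ne_zero 2 (Lib.jj_ne _ hz)
    refine (h1.mono Lib.SB_sub_UH).congr ?_
    intro z hz
    exact ampdPhi_of_mem hS v x (Lib.SB_sub_UH hz)
  · intro v x
    refine ((hNRM.1 N v.1 hN (hS _ v.2) (rep N x)).2.1).congr_fun ?_ hSBm
    intro z hz
    exact (ampdPhi_norm hS v x (Lib.SB_sub_UH hz)).symm
  · intro v hv
    have hq : ∀ τ ∈ UH, qs v.1 τ = 0 := by
      intro τ hτ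
      obtain ⟨g, hg⟩ := Lib.exists_mob_SB hτ
      have hw : mob g τ ∈ UH := Lib.SB_sub_UH hg
      have h1 := hv (cls N g⁻¹) (mob g τ) hg
      have h2 := (hCOS N hN).1 (cls N g⁻¹)
      have h3 := ((hCOS N hN).2 (rep N (cls N g⁻¹)) g⁻¹).1 h2
      have h4 : gsq v.1 (g⁻¹ * (rep N (cls N g⁻¹))⁻¹ * rep N (cls N g⁻¹)) (mob g τ) =
          gsq v.1 (rep N (cls N g⁻¹)) (mob g τ) := Lib.gsq_inv (hS _ v.2) h3 _ hw
      rw [inv_mul_cancel_right, ← ampdPhi_norm hS v _ hw, h1] at h4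
      unfold gsq at h4
      rw [Lib.mob_inv_mob g hτ, norm_zero, zero_pow two_ne_zero] at h4
      have h5 : ‖jj g⁻¹ (mob g τ)‖ ^ 4 ≠ 0 :=
        pow_ne_zero 4 (norm_ne_zero_iff.mpr (Lib.jj_ne _ hw))
      rw [div_eq_zero_iff] at h4
      rcases h4 with h4 | h4
      · exact norm_eq_zero.mp (pow_eq_zero_iff (two_ne_zero) |>.mp h4)
      · exact absurd h4 h5
    have h0 : v.1 = 0 := by
      refine hQUNI v.1 0 (fun τ hτ => (hS _ v.2).sum τ hτ) (fun τ _ => ?_) (fun τ hτ => ?_)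
      · simp
      · rw [hq τ hτ]
        unfold qs
        simp
    exact Subtype.ext h0
  · intro v x z hz
    rw [ampdPhi_norm hS v x (Lib.SB_sub_UH hz)]
    have h1 : ∑ y, ∫ u in SB, ‖ampdPhi N S hS v y u‖ ^ 2 = nrm N v.1 := by
      unfold nrm
      rw [finsum_eq_sum_of_fintype]
      refine Finset.sum_congr rfl fun y _ => ?_
      refine setIntegral_congr_fun hSBm ?_
      intro u hu
      exact ampdPhi_norm hS v y (Lib.SB_sub_UH hu)
    rw [h1]
    exact hb v.1 v.2 x z hz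

theorem ampd_nrm_nonneg (hNRM : ST_NRM) {N : ℕ} (hN : 1 ≤ N) {b : ℕ → ℂ} (hb : Cusp N b) :
    0 ≤ nrm N b := finsum_nonneg fun x => (hNRM.1 N b hN hb (rep N x)).2.2.1

theorem ampd_isOpen_bad (N p J : ℕ) : IsOpen {z : ℂ | Bad N p J z} := by
  rw [isOpen_iff_mem_nhds]
  rintro z ⟨i, hi, A, B, C, D, h1, h2, h3, ξ, hξ, ξ', hξ', h4⟩
  have o1 : IsOpen {z0 : ℂ | dist ξ z0 < z0.im / 10} :=
    isOpen_lt (continuous_const.dist continuous_id) (Complex.continuous_im.div_const _)
  have o2 : IsOpen {z0 : ℂ | dist ξ' z0 < z0.im / 10} :=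
    isOpen_lt (continuous_const.dist continuous_id) (Complex.continuous_im.div_const _)
  filter_upwards [o1.mem_nhds hξ, o2.mem_nhds hξ'] with w hw1 hw2
  exact ⟨i, hi, A, B, C, D, h1, h2, h3, ξ, hw1, ξ', hw2, h4⟩

/-- integral of the density over the box -/
theorem ampd_int0 (hNRM : ST_NRM) : IntegrableOn (fun z : ℂ => (z.im ^ 2)⁻¹) SB ∧
    ∫ z in SB, (z.im ^ 2)⁻¹ = 5 / 4 := by
  obtain ⟨h1, h2⟩ := hNRM.2.2 (4 / 5) le_rfl
  have h3 : SB ∩ {z : ℂ | (4 : ℝ) / 5 ≤ z.im} = SB := by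
    refine Set.inter_eq_left.mpr ?_
    intro z hz
    exact hz.2
  rw [h3] at h1 h2
  refine ⟨h1, ?_⟩
  rw [h2]
  norm_num

/-- elementary: `log (N+1) ≤ 41 N^(1/40)` and variants -/
theorem ampd_log (N : ℕ) (hN : 1 ≤ N) :
    Real.log (N + 1) ≤ 41 * (N : ℝ) ^ (1 / 40 : ℝ) ∧
    Real.log (N + 1) ≤ 41 * (N : ℝ) ^ (1 / 8 : ℝ) ∧
    Real.log (N + 1) ≤ Real.log 2 + Real.log N ∧ 0 < Real.log (N + 1) := by
  have hN1 : (1 : ℝ) ≤ N := by exact_mod_cast hN
  have h0 : Real.log (N + 1) ≤ Real.log 2 + Real.log N := by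
    rw [← Real.log_mul (by norm_num) (by positivity)]
    exact Real.log_le_log (by positivity) (by linarith)
  have h1 : Real.log N ≤ (N : ℝ) ^ (1 / 40 : ℝ) / (1 / 40) :=
    Real.log_le_rpow_div (by positivity) (by norm_num)
  have h2 : (1 : ℝ) ≤ (N : ℝ) ^ (1 / 40 : ℝ) := Real.one_le_rpow hN1 (by norm_num)
  have h3 : Real.log 2 < 1 := lt_of_lt_of_le Real.log_two_lt_d9 (by norm_num)
  have h4 : (N : ℝ) ^ (1 / 40 : ℝ) ≤ (N : ℝ) ^ (1 / 8 : ℝ) :=
    Real.rpow_le_rpow_of_exponent_le hN1 (by norm_num)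
  refine ⟨by linarith, by linarith, h0, Real.log_pos (by linarith)⟩

theorem st_AMPD (hUB : ST_UB) (hAMPZ : ST_AMPZ) (hNBAD : ST_NBAD) (hDIMK : ST_DIMK)
    (hNRM : ST_NRM) (hCOS : ST_COS) (hPNF : ST_PNF) (hQDIF : ST_QDIF) (hQUNI : ST_QUNI) :
    ST_AMPD := by
  obtain ⟨C0, hC0, hUB⟩ := hUB
  obtain ⟨C1, hC1, hAMPZ⟩ := hAMPZ
  obtain ⟨C2, hC2, hNBAD⟩ := hNBAD
  refine ⟨1000 * C0 + 1000 * C1 + 1000 * C0 * C2, by positivity, ?_⟩
  intro N p α hN hp hpN S hS
  obtain ⟨hfin, hcard1, hcard2⟩ := hPNF N hN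
  have := hfin
  have : Fintype (PN N) := Fintype.ofFinite _
  have hSC : ∀ b ∈ S, Cusp N b := fun b hb => ((hS b).1 hb).1
  obtain ⟨hl1, hl2, hl3, hl4⟩ := ampd_log N hN
  have hN1 : (1 : ℝ) ≤ N := by exact_mod_cast hN
  have hN0 : (0 : ℝ) < N := by linarith
  have hp2 : (2 : ℝ) ≤ p := by exact_mod_cast hp.two_le
  have hlp : Real.log 2 ≤ Real.log p := Real.log_le_log (by norm_num) hp2
  have hl2p : (1 : ℝ) / 2 < Real.log 2 := lt_trans (by norm_num) Real.log_two_gt_d9
  have hlp2 : (1 : ℝ) / 2 ≤ Real.log p := by linarith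
  have hlp0 : 0 < Real.log p := by linarith
  have hcardR : (N : ℝ) ≤ (Nat.card (PN N) : ℝ) := by exact_mod_cast hcard1
  have hpsi : (N : ℝ) ≤ psi N := hcardR.trans hcard2
  have hpsi0 : 0 < psi N := by linarith
  -- the quotient in the final bound
  set Q : ℝ := Real.log p / Real.log (N + 1) with hQ
  have hQ0 : 0 < Q := div_pos hlp0 hl4
  have hgoal : (1000 * C0 + 1000 * C1 + 1000 * C0 * C2) * psi N * Real.log p / Real.log (N + 1) =
      (1000 * C0 + 1000 * C1 + 1000 * C0 * C2) * psi N * Q := by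
    rw [hQ]
    ring
  rw [hgoal]
  by_cases hfd : FiniteDimensional ℂ S
  swap
  · rw [Module.finrank_of_not_finite hfd, Nat.cast_zero]
    positivity
  have := hfd
  obtain ⟨hi0, hi1⟩ := ampd_int0 hNRM
  have hSBm : MeasurableSet SB := ampd_isClosed_SB.measurableSet
  have hcardF : (Nat.card (PN N) : ℝ) = (Fintype.card (PN N) : ℝ) := by
    rw [Nat.card_eq_fintype_card]
  have hgq : ∀ b ∈ S, ∀ x : PN N, ∀ z ∈ SB,
      gsq b (rep N x) z ≤ C0 * (z.im ^ 2)⁻¹ * nrm N b := by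
    intro b hb x z hz
    have h1 := hUB N b hN (hSC b hb) (rep N x) z hz.2
    have h2 : 0 < z.im ^ 2 := by
      have : 0 < z.im := Lib.SB_sub_UH hz
      positivity
    have h3 : gsq b (rep N x) z ≤ C0 * nrm N b / z.im ^ 2 := by
      rw [le_div_iff₀ h2]
      exact h1
    calc gsq b (rep N x) z ≤ C0 * nrm N b / z.im ^ 2 := h3
      _ = C0 * (z.im ^ 2)⁻¹ * nrm N b := by
        rw [div_eq_mul_inv]
        ring
  by_cases hJ : Real.log N < 40 * Real.log p
  · -- no amplification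
    have h1 := ampd_dim hDIMK hNRM hCOS hQDIF hQUNI hN S hSC
      (fun _ z => C0 * (z.im ^ 2)⁻¹) (fun x => hi0.const_mul C0)
      (fun _ z _ => mul_nonneg hC0.le (by positivity)) hgq
    have h2 : ∑ _x : PN N, ∫ z in SB, C0 * (z.im ^ 2)⁻¹ =
        (Fintype.card (PN N) : ℝ) * (C0 * (5 / 4)) := by
      rw [integral_const_mul, hi1, Finset.sum_const, Finset.card_univ, nsmul_eq_mul]
    rw [h2, ← hcardF] at h1
    have h3 : Real.log (N + 1) ≤ 41 * Real.log p := by linarith
    have h4 : 1 ≤ 41 * Q := by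
      rw [hQ, ← mul_div_assoc, le_div_iff₀ hl4]
      linarith
    calc (Module.finrank ℂ S : ℝ) ≤ (Nat.card (PN N) : ℝ) * (C0 * (5 / 4)) := h1
      _ ≤ psi N * (C0 * (5 / 4)) := by gcongr
      _ ≤ psi N * (C0 * (5 / 4)) * (41 * Q) := le_mul_of_one_le_right (by positivity) h4
      _ ≤ (1000 * C0 + 1000 * C1 + 1000 * C0 * C2) * psi N * Q := by
        have e1 : (1000 * C0 + 1000 * C1 + 1000 * C0 * C2) * psi N * Q =
            psi N * (C0 * (5 / 4)) * (41 * Q) + (1000 - 205 / 4) * (C0 * psi N * Q) +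
            1000 * (C1 * psi N * Q) + 1000 * (C0 * C2 * psi N * Q) := by ring
        rw [e1]
        have e2 : 0 ≤ C0 * psi N * Q := by positivity
        have e3 : 0 ≤ C1 * psi N * Q := by positivity
        have e4 : 0 ≤ C0 * C2 * psi N * Q := by positivity
        linarith
  · -- amplification
    push Not at hJ
    set J : ℕ := ⌊Real.log N / (40 * Real.log p)⌋₊ with hJdef
    have hq1 : 1 ≤ Real.log N / (40 * Real.log p) := by
      rw [le_div_iff₀ (by positivity)]
      linarith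
    have hJ1 : 1 ≤ J := by
      rw [hJdef, Nat.one_le_floor_iff]
      exact hq1
    have hJR : (J : ℝ) ≤ Real.log N / (40 * Real.log p) := Nat.floor_le (by linarith)
    have hJR2 : Real.log N / (40 * Real.log p) < J + 1 := Nat.lt_floor_add_one _
    have hJ1R : (1 : ℝ) ≤ J := by exact_mod_cast hJ1
    have hJinv : (J : ℝ)⁻¹ ≤ 160 * Q := by
      have h1 : Real.log N / (40 * Real.log p) ≤ 2 * J := by linarith
      have h2 : Real.log N ≤ 80 * J * Real.log p := by
        rw [div_le_iff₀ (by positivity)] at h1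
        linarith
      have h3 : Real.log (N + 1) ≤ 2 * Real.log N := by linarith
      rw [hQ, inv_le_iff_one_le_mul₀ (by positivity)]
      have h4 : 160 * (Real.log p / Real.log (N + 1)) * J =
          (160 * Real.log p * J) / Real.log (N + 1) := by ring
      rw [h4, le_div_iff₀ hl4]
      nlinarith
    set Y : ℝ := (N : ℝ) ^ (1 / 40 : ℝ) with hY
    have hY1 : 1 ≤ Y := Real.one_le_rpow hN1 (by norm_num)
    have hY0 : 0 < Y := by linarith
    have hYinv : Y⁻¹ ≤ 82 * Q := by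
      rw [hQ, inv_le_iff_one_le_mul₀ hY0]
      have h4 : 82 * (Real.log p / Real.log (N + 1)) * Y =
          (82 * Real.log p * Y) / Real.log (N + 1) := by ring
      rw [h4, le_div_iff₀ hl4]
      nlinarith
    have hpJ : (p : ℝ) ^ J ≤ Y := by
      have h1 : (p : ℝ) ^ J = Real.exp (J * Real.log p) := by
        rw [mul_comm, Real.exp_mul, Real.exp_log (by linarith), Real.rpow_natCast]
      have h2 : Y = Real.exp (Real.log N * (1 / 40)) := by
        rw [Real.exp_mul, Real.exp_log hN0]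
      rw [h1, h2]
      apply Real.exp_le_exp.mpr
      rw [le_div_iff₀ (by positivity)] at hJR
      linarith
    -- the sets
    set f : ℂ → ℝ := fun z => (z.im ^ 2)⁻¹ with hf
    have hf0 : ∀ z, 0 ≤ f z := fun z => by positivity
    set T : Set ℂ := {z : ℂ | Y ≤ z.im} with hT
    have hTm : MeasurableSet T := (isClosed_le continuous_const Complex.continuous_im).measurableSet
    set W : PN N → Set ℂ := fun x => (UH ∩ mob (rep N x) ⁻¹' {z : ℂ | Bad N p J z}) ∩
      {z : ℂ | z.im ≤ Y} with hW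
    have hWm : ∀ x, MeasurableSet (W x) := fun x =>
      (((Lib.continuousOn_mob (rep N x)).isOpen_inter_preimage Lib.isOpen_UH
        (ampd_isOpen_bad N p J)).measurableSet).inter
        (isClosed_le Complex.continuous_im continuous_const).measurableSet
    obtain ⟨hiY, hiY2⟩ := hNRM.2.2 Y (by linarith)
    have hiT : IntegrableOn (T.indicator f) SB := hi0.indicator hTm
    have hiW : ∀ x, IntegrableOn ((W x).indicator f) SB := fun x => hi0.indicator (hWm x)
    have h1 := ampd_dim hDIMK hNRM hCOS hQDIF hQUNI hN S hSC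
      (fun x z => (C1 * (J : ℝ)⁻¹) * f z + C0 * T.indicator f z + C0 * (W x).indicator f z)
      (fun x => ((hi0.const_mul _).add (hiT.const_mul C0)).add ((hiW x).const_mul C0))
      (fun x z _ => by
        have e0 := hf0 z
        have e1 : 0 ≤ T.indicator f z := Set.indicator_nonneg (fun z _ => hf0 z) z
        have e2 : 0 ≤ (W x).indicator f z := Set.indicator_nonneg (fun z _ => hf0 z) z
        positivity) ?_
    swap
    · intro b hb x z hz
      have hn := ampd_nrm_nonneg hNRM hN (hSC b hb)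
      have hzU := Lib.SB_sub_UH hz
      have hz2 : 0 < z.im ^ 2 := by
        have : 0 < z.im := hzU
        positivity
      have hTn : 0 ≤ T.indicator f z := Set.indicator_nonneg (fun z _ => hf0 z) z
      have hWn : 0 ≤ (W x).indicator f z := Set.indicator_nonneg (fun z _ => hf0 z) z
      have hfz := hf0 z
      have hA : 0 ≤ C1 * (J : ℝ)⁻¹ * f z := by positivity
      by_cases hzT : z ∈ T
      · refine (hgq b hb x z hz).trans ?_
        refine mul_le_mul_of_nonneg_right ?_ hn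
        rw [Set.indicator_of_mem hzT]
        have : 0 ≤ C0 * (W x).indicator f z := by positivity
        change C0 * f z ≤ _
        linarith
      · by_cases hzW : z ∈ W x
        · refine (hgq b hb x z hz).trans ?_
          refine mul_le_mul_of_nonneg_right ?_ hn
          rw [Set.indicator_of_mem hzW]
          have : 0 ≤ C0 * T.indicator f z := by positivity
          change C0 * f z ≤ _
          linarith
        · have hzY : z.im ≤ Y := by
            have : ¬ (Y ≤ z.im) := hzT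
            linarith
          have hnb : ¬ Bad N p J (mob (rep N x) z) := by
            intro hbad
            exact hzW ⟨⟨hzU, hbad⟩, hzY⟩
          have h2 := hAMPZ N p J b α hN hp (hSC b hb) ((hS b).1 hb).2 (mob (rep N x) z)
            (Lib.mob_mem _ hzU) hnb
          rw [← Lib.gsq_im b (rep N x) hzU] at h2
          have h3 : gsq b (rep N x) z ≤ C1 * (J : ℝ)⁻¹ * f z * nrm N b := by
            have h4 : gsq b (rep N x) z = (J * (gsq b (rep N x) z * z.im ^ 2)) * ((J : ℝ)⁻¹ * f z) := by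
              have n1 : (J : ℝ) * (J : ℝ)⁻¹ = 1 := mul_inv_cancel₀ (by positivity)
              have n2 : z.im ^ 2 * f z = 1 := mul_inv_cancel₀ hz2.ne'
              calc gsq b (rep N x) z = gsq b (rep N x) z * ((J : ℝ) * (J : ℝ)⁻¹) *
                    (z.im ^ 2 * f z) := by rw [n1, n2, mul_one, mul_one]
                _ = _ := by ring
            rw [h4]
            calc (J * (gsq b (rep N x) z * z.im ^ 2)) * ((J : ℝ)⁻¹ * f z)
                ≤ (C1 * nrm N b) * ((J : ℝ)⁻¹ * f z) :=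
                  mul_le_mul_of_nonneg_right h2 (by positivity)
              _ = _ := by ring
          refine h3.trans (mul_le_mul_of_nonneg_right ?_ hn)
          have e1 : 0 ≤ C0 * T.indicator f z := by positivity
          have e2 : 0 ≤ C0 * (W x).indicator f z := by positivity
          linarith
    -- evaluation of the integrals
    have h2 : ∀ x : PN N, ∫ z in SB, ((C1 * (J : ℝ)⁻¹) * f z + C0 * T.indicator f z +
        C0 * (W x).indicator f z) = (C1 * (J : ℝ)⁻¹) * (5 / 4) + C0 * Y⁻¹ +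
        C0 * ∫ z in SB, (W x).indicator f z := by
      intro x
      have i1 : Integrable (fun z => (C1 * (J : ℝ)⁻¹) * f z) (volume.restrict SB) :=
        hi0.const_mul _
      have i2 : Integrable (fun z => C0 * T.indicator f z) (volume.restrict SB) :=
        hiT.const_mul C0
      have i3 : Integrable (fun z => C0 * (W x).indicator f z) (volume.restrict SB) :=
        (hiW x).const_mul C0
      have i12 : Integrable (fun z => (C1 * (J : ℝ)⁻¹) * f z + C0 * T.indicator f z)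
        (volume.restrict SB) := i1.add i2
      rw [integral_add i12 i3, integral_add i1 i2, integral_const_mul,
        integral_const_mul, integral_const_mul, hi1, setIntegral_indicator hTm, hiY2]
    have h3 : ∑ x : PN N, ∫ z in SB, (W x).indicator f z ≤
        C2 * ((p : ℝ) ^ J * Y) ^ 5 * (N : ℝ) ^ (5 / 8 : ℝ) * (5 / 4) := by
      rw [← integral_finsetSum _ (fun x _ => hiW x), ← hi1, ← integral_const_mul]
      refine setIntegral_mono_on (integrable_finsetSum _ (fun x _ => hiW x))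
        (hi0.const_mul _) hSBm ?_
      intro z hz
      have hzU := Lib.SB_sub_UH hz
      by_cases hzY : z.im ≤ Y
      · have h4 := hNBAD N p J Y hN hp hpN hY1 z hz hzY
        have h5 : ∑ x : PN N, (W x).indicator f z =
            ({x : PN N | Bad N p J (mob (rep N x) z)}.ncard : ℝ) * f z := by
          classical
          have h6 : ∀ x : PN N, (W x).indicator f z =
              if Bad N p J (mob (rep N x) z) then f z else 0 := by
            intro x
            by_cases hbad : Bad N p J (mob (rep N x) z)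
            · rw [if_pos hbad, Set.indicator_of_mem]
              exact ⟨⟨hzU, hbad⟩, hzY⟩
            · rw [if_neg hbad, Set.indicator_of_notMem]
              intro h7
              exact hbad h7.1.2
          rw [Finset.sum_congr rfl (fun x _ => h6 x), ← Finset.sum_filter, Finset.sum_const,
            nsmul_eq_mul, Set.ncard_eq_toFinset_card']
          congr 3
          ext x
          simp
        rw [h5]
        exact mul_le_mul_of_nonneg_right h4 (hf0 z)
      · have h5 : ∑ x : PN N, (W x).indicator f z = 0 := by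
          refine Finset.sum_eq_zero fun x _ => ?_
          rw [Set.indicator_of_notMem]
          intro h7
          exact hzY h7.2
        rw [h5]
        have := hf0 z
        positivity
    have h4 : C2 * ((p : ℝ) ^ J * Y) ^ 5 * (N : ℝ) ^ (5 / 8 : ℝ) * (5 / 4) ≤
        C2 * (5 / 4) * (psi N * (82 * Q)) := by
      have a1 : ((p : ℝ) ^ J * Y) ^ 5 ≤ (N : ℝ) ^ (1 / 4 : ℝ) := by
        have a2 : ((p : ℝ) ^ J * Y) ^ 5 ≤ (Y * Y) ^ 5 := by gcongr
        have a3 : (Y * Y) ^ 5 = (N : ℝ) ^ (1 / 4 : ℝ) := by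
          have : (Y * Y) ^ 5 = Y ^ (10 : ℕ) := by ring
          rw [this, hY, ← Real.rpow_natCast, ← Real.rpow_mul hN0.le]
          norm_num
        rw [← a3]
        exact a2
      have a4 : (N : ℝ) ^ (1 / 4 : ℝ) * (N : ℝ) ^ (5 / 8 : ℝ) * (N : ℝ) ^ (1 / 8 : ℝ) = N := by
        rw [← Real.rpow_add hN0, ← Real.rpow_add hN0]
        norm_num
      have a5 : (1 : ℝ) ≤ 82 * Q * (N : ℝ) ^ (1 / 8 : ℝ) := by
        have h4 : 82 * Q * (N : ℝ) ^ (1 / 8 : ℝ) =
          (82 * Real.log p * (N : ℝ) ^ (1 / 8 : ℝ)) / Real.log (N + 1) := by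
          rw [hQ]
          ring
        rw [h4, le_div_iff₀ hl4]
        have : 0 ≤ (N : ℝ) ^ (1 / 8 : ℝ) := by positivity
        nlinarith
      have a6 : (N : ℝ) ^ (1 / 4 : ℝ) * (N : ℝ) ^ (5 / 8 : ℝ) ≤ psi N * (82 * Q) := by
        have b0 : 0 ≤ (N : ℝ) ^ (1 / 4 : ℝ) * (N : ℝ) ^ (5 / 8 : ℝ) := by positivity
        calc (N : ℝ) ^ (1 / 4 : ℝ) * (N : ℝ) ^ (5 / 8 : ℝ)
            ≤ (N : ℝ) ^ (1 / 4 : ℝ) * (N : ℝ) ^ (5 / 8 : ℝ) * (82 * Q * (N : ℝ) ^ (1 / 8 : ℝ)) :=
              le_mul_of_one_le_right b0 a5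
          _ = ((N : ℝ) ^ (1 / 4 : ℝ) * (N : ℝ) ^ (5 / 8 : ℝ) * (N : ℝ) ^ (1 / 8 : ℝ)) * (82 * Q) := by
              ring
          _ = N * (82 * Q) := by rw [a4]
          _ ≤ psi N * (82 * Q) := by gcongr
      calc C2 * ((p : ℝ) ^ J * Y) ^ 5 * (N : ℝ) ^ (5 / 8 : ℝ) * (5 / 4)
          = C2 * (5 / 4) * (((p : ℝ) ^ J * Y) ^ 5 * (N : ℝ) ^ (5 / 8 : ℝ)) := by ring
        _ ≤ C2 * (5 / 4) * ((N : ℝ) ^ (1 / 4 : ℝ) * (N : ℝ) ^ (5 / 8 : ℝ)) := by gcongr
        _ ≤ C2 * (5 / 4) * (psi N * (82 * Q)) := by gcongr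
    have h5 : ∑ x : PN N, ∫ z in SB, ((C1 * (J : ℝ)⁻¹) * f z + C0 * T.indicator f z +
        C0 * (W x).indicator f z) ≤
        (Nat.card (PN N) : ℝ) * ((C1 * (J : ℝ)⁻¹) * (5 / 4) + C0 * Y⁻¹) +
        C0 * (C2 * (5 / 4) * (psi N * (82 * Q))) := by
      rw [Finset.sum_congr rfl (fun x _ => h2 x), Finset.sum_add_distrib, Finset.sum_const,
        Finset.card_univ, nsmul_eq_mul, ← hcardF, ← Finset.mul_sum]
      have := mul_le_mul_of_nonneg_left (h3.trans h4) hC0.le
      linarith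
    have h6 : (Nat.card (PN N) : ℝ) * ((C1 * (J : ℝ)⁻¹) * (5 / 4) + C0 * Y⁻¹) ≤
        psi N * ((C1 * (160 * Q)) * (5 / 4) + C0 * (82 * Q)) := by gcongr
    have h7 : (Module.finrank ℂ S : ℝ) ≤ psi N * ((C1 * (160 * Q)) * (5 / 4) + C0 * (82 * Q)) +
        C0 * (C2 * (5 / 4) * (psi N * (82 * Q))) := h1.trans (h5.trans (by linarith))
    refine h7.trans ?_
    have e2 : 0 ≤ C0 * psi N * Q := by positivity
    have e3 : 0 ≤ C1 * psi N * Q := by positivity
    have e4 : 0 ≤ C0 * C2 * psi N * Q := by positivity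
    nlinarith

end Pool.Agent.Helper96.MP
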