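import Pool.Agent.Helper96.MP.DefsB
import Pool.Agent.Helper96.MP.VF

/-!
# MP_bde085_nt, module TRN: Manin symbols of newforms have vanishing sums over the fibres
-/

set_option autoImplicit false

namespace Pool.Agent.Helper96.MP

open Complex Filter Topology

/-- Bezout form of `Uni` -/
theorem trn_uni_act (N : ℕ) (a b c d s t : ℤ) (hD : IsCoprime (a * d - b * c) (N : ℤ))
    (h : Uni N s t) : Uni N (s * a + t * c) (s * b + t * d) := by
  rw [pnf_uni_iff] at h ⊢
  obtain ⟨u, v, w, h⟩ := h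
  obtain ⟨r, q, hr⟩ := hD
  refine ⟨r * u * d - r * v * b, - (r * u * c) + r * v * a,
    q * (u * s + v * t + w * N) + r * (a * d - b * c) * w, ?_⟩
  have : (r * u * d - r * v * b) * (s * a + t * c) + (- (r * u * c) + r * v * a) * (s * b + t * d) +
    (q * (u * s + v * t + w * N) + r * (a * d - b * c) * w) * N =
    (r * (a * d - b * c) + q * N) * (u * s + v * t + w * N) := by ring
  rw [this, hr, h, one_mul]

theorem trn_eqv_act (N : ℕ) (a b c d s t s' t' : ℤ) (h : eqv N s t s' t') :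
    eqv N (s * a + t * c) (s * b + t * d) (s' * a + t' * c) (s' * b + t' * d) := by
  obtain ⟨l, hl, h1, h2⟩ := h
  refine ⟨l, hl, ?_, ?_⟩
  · have : s' * a + t' * c - l * (s * a + t * c) = (s' - l * s) * a + (t' - l * t) * c := by ring
    rw [this]
    exact dvd_add (Dvd.dvd.mul_right h1 _) (Dvd.dvd.mul_right h2 _)
  · have : s' * b + t' * d - l * (s * b + t * d) = (s' - l * s) * b + (t' - l * t) * d := by ring
    rw [this]
    exact dvd_add (Dvd.dvd.mul_right h1 _) (Dvd.dvd.mul_right h2 _)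

/-- integral matrices -/
abbrev TrnM := ℤ × ℤ × ℤ × ℤ

/-- the determinant is prime to `N` -/
def trn_cop (N : ℕ) (m : TrnM) : Prop := IsCoprime (m.1 * m.2.2.2 - m.2.1 * m.2.2.1) (N : ℤ)

/-- class of a pair -/
def trn_cl (N : ℕ) (c d : ℤ) (h : Uni N c d) : PN N := Quotient.mk (sPN N) ⟨(c, d), h⟩

/-- right action of a matrix on the projective line -/
def trn_act {N : ℕ} (m : TrnM) (hm : trn_cop N m) : PN N → PN N :=
  Quotient.map (fun u : UP N => (⟨(u.1.1 * m.1 + u.1.2 * m.2.2.1, u.1.1 * m.2.1 + u.1.2 * m.2.2.2),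
    trn_uni_act N m.1 m.2.1 m.2.2.1 m.2.2.2 u.1.1 u.1.2 hm u.2⟩ : UP N))
    (fun u u' h => trn_eqv_act N m.1 m.2.1 m.2.2.1 m.2.2.2 u.1.1 u.1.2 u'.1.1 u'.1.2 h)

theorem trn_act_cl {N : ℕ} (m : TrnM) (hm : trn_cop N m) (c d : ℤ) (h : Uni N c d) :
    trn_act m hm (trn_cl N c d h) = trn_cl N (c * m.1 + d * m.2.2.1) (c * m.2.1 + d * m.2.2.2)
      (trn_uni_act N m.1 m.2.1 m.2.2.1 m.2.2.2 c d hm h) := rfl

theorem trn_ind {N : ℕ} {P : PN N → Prop} (h : ∀ c d hu, P (trn_cl N c d hu)) (x : PN N) : P x := by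
  induction x using Quotient.inductionOn with
  | h u =>
    obtain ⟨⟨c, d⟩, hu⟩ := u
    exact h c d hu

theorem trn_ev {N : ℕ} (g : PN N → ℝ) (c d : ℤ) (h : Uni N c d) : ev g c d = g (trn_cl N c d h) := by
  unfold ev
  rw [dif_pos h]
  rfl

theorem trn_ev_act {N : ℕ} (g : PN N → ℝ) (m : TrnM) (hm : trn_cop N m) (c d : ℤ) (h : Uni N c d) :
    ev g (c * m.1 + d * m.2.2.1) (c * m.2.1 + d * m.2.2.2) = g (trn_act m hm (trn_cl N c d h)) := by
  rw [trn_ev g _ _ (trn_uni_act N m.1 m.2.1 m.2.2.1 m.2.2.2 c d hm h)]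
  rfl

/-- the adjoint matrix -/
def trn_adj (m : TrnM) : TrnM := (m.2.2.2, -m.2.1, -m.2.2.1, m.1)

theorem trn_adj_cop {N : ℕ} {m : TrnM} (hm : trn_cop N m) : trn_cop N (trn_adj m) := by
  unfold trn_cop trn_adj at *
  simp only
  have : m.2.2.2 * m.1 - -m.2.1 * -m.2.2.1 = m.1 * m.2.2.2 - m.2.1 * m.2.2.1 := by ring
  rw [this]
  exact hm

theorem trn_adj_adj (m : TrnM) : trn_adj (trn_adj m) = m := by
  obtain ⟨a, b, c, d⟩ := m
  simp [trn_adj]

theorem trn_act_adj {N : ℕ} (m : TrnM) (hm : trn_cop N m) (hm' : trn_cop N (trn_adj m))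
    (x : PN N) : trn_act (trn_adj m) hm' (trn_act m hm x) = x := by
  refine trn_ind (P := fun x => trn_act (trn_adj m) hm' (trn_act m hm x) = x) ?_ x
  intro c d hu
  rw [trn_act_cl, trn_act_cl]
  refine (Quotient.sound ?_ : _ = _)
  refine eqv_symm ⟨m.1 * m.2.2.2 - m.2.1 * m.2.2.1, hm, ?_, ?_⟩
  · simp only [trn_adj]
    have : (c * m.1 + d * m.2.2.1) * m.2.2.2 + (c * m.2.1 + d * m.2.2.2) * -m.2.2.1 -
      (m.1 * m.2.2.2 - m.2.1 * m.2.2.1) * c = 0 := by ring
    rw [this]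
    exact dvd_zero _
  · simp only [trn_adj]
    have : (c * m.1 + d * m.2.2.1) * -m.2.1 + (c * m.2.1 + d * m.2.2.2) * m.1 -
      (m.1 * m.2.2.2 - m.2.1 * m.2.2.1) * d = 0 := by ring
    rw [this]
    exact dvd_zero _

theorem trn_act_bij {N : ℕ} (m : TrnM) (hm : trn_cop N m) : Function.Bijective (trn_act m hm) := by
  constructor
  · exact Function.LeftInverse.injective (trn_act_adj m hm (trn_adj_cop hm))
  · intro x
    refine ⟨trn_act (trn_adj m) (trn_adj_cop hm) x, ?_⟩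
    have h := trn_act_adj (trn_adj m) (trn_adj_cop hm) (by rw [trn_adj_adj]; exact hm) x
    simpa only [trn_adj_adj] using h

theorem trn_red_cl (hRED : ST_RED) {N M : ℕ} (h : M ∣ N) (c d : ℤ) (hu : Uni N c d) :
    pnf_red M h (trn_cl N c d hu) = trn_cl M c d (pnf_uni_mono h hu) :=
  hRED.1 N M h c d hu (pnf_uni_mono h hu)

theorem trn_cop_mono {N M : ℕ} (h : M ∣ N) {m : TrnM} (hm : trn_cop N m) : trn_cop M m :=
  IsCoprime.of_isCoprime_of_dvd_right hm (by exact_mod_cast h)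

theorem trn_red_act (hRED : ST_RED) {N M : ℕ} (h : M ∣ N) (m : TrnM) (hm : trn_cop N m) (x : PN N) :
    pnf_red M h (trn_act m hm x) = trn_act m (trn_cop_mono h hm) (pnf_red M h x) := by
  refine trn_ind (P := fun x => pnf_red M h (trn_act m hm x) =
    trn_act m (trn_cop_mono h hm) (pnf_red M h x)) ?_ x
  intro c d hu
  rw [trn_act_cl, trn_red_cl hRED, trn_red_cl hRED, trn_act_cl]

/-- the push forward -/
noncomputable def trn_w {N : ℕ} (M : ℕ) (h : M ∣ N) (g : PN N → ℝ) (y : PN M) : ℝ :=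
  ∑ᶠ x : {x : PN N // pnf_red M h x = y}, g x.1

theorem trn_w_act (hRED : ST_RED) {N M : ℕ} (h : M ∣ N) (g : PN N → ℝ) (m : TrnM)
    (hm : trn_cop N m) (y : PN M) : trn_w M h g (trn_act m (trn_cop_mono h hm) y) =
      ∑ᶠ x : {x : PN N // pnf_red M h x = y}, g (trn_act m hm x.1) := by
  unfold trn_w
  symm
  have hb := trn_act_bij m hm
  have hb' := trn_act_bij m (trn_cop_mono h hm)
  refine finsum_eq_of_bijective (fun x : {x : PN N // pnf_red M h x = y} =>
    (⟨trn_act m hm x.1, by rw [trn_red_act hRED, x.2]⟩ :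
      {x : PN N // pnf_red M h x = trn_act m (trn_cop_mono h hm) y})) ?_ (fun x => rfl)
  constructor
  · intro x x' hx
    exact Subtype.ext (hb.1 (congrArg Subtype.val hx))
  · rintro ⟨x', hx'⟩
    obtain ⟨x, rfl⟩ := hb.2 x'
    rw [trn_red_act hRED] at hx'
    exact ⟨⟨x, hb'.1 hx'⟩, rfl⟩

/-- the matrices of the relations -/
theorem trn_cop_one {N : ℕ} {m : TrnM} (h : m.1 * m.2.2.2 - m.2.1 * m.2.2.1 = 1) : trn_cop N m := by
  unfold trn_cop
  rw [h]
  exact isCoprime_one_left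

theorem trn_FC_zero (b : ℕ → ℂ) (hb : ∀ n, b n = 0) (p q : ℤ) : FC b p q = 0 := by
  unfold FC
  split
  · rfl
  · have h1 : (fun t : ℝ => Fs b ((p : ℂ) / (q : ℂ) + I * (t : ℂ))) = fun _ => 0 := by
      funext t
      unfold Fs
      simp [hb]
    rw [h1]
    exact tendsto_const_nhds.limUnder_eq

theorem trn_fib (hSURJ : ST_SURJ) (hSYM : ST_SYM) (hSTRICT : ST_STRICT) (hRED : ST_RED)
    (N : ℕ) (a : ℕ → ℤ) (hN : 1 ≤ N) (hnf : Newform N a) (g : PN N → ℝ)
    (htwo : ∀ c d : ℤ, Uni N c d → ev g c d + ev g d (-c) = 0)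
    (hthree : ∀ c d : ℤ, Uni N c d → ev g c d + ev g (c + d) (-c) + ev g d (-c - d) = 0)
    (hrow : ∀ l : ℕ, l.Prime → ¬ l ∣ N → HRow N l (a l) g)
    (M : ℕ) (h : M ∣ N) (hM : 1 ≤ M) (hMN : M < N) (y : PN M) :
    ∑ᶠ x : {x : PN N // pnf_red M h x = y}, g x.1 = 0 := by
  have hfin := pnf_finite N hN
  classical
  have hfib : ∀ y : PN M, Finite {x : PN N // pnf_red M h x = y} := fun y => inferInstance
  -- matrices
  set mS : TrnM := (0, -1, 1, 0) with hmS
  set mA : TrnM := (1, -1, 1, 0) with hmA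
  set mB : TrnM := (0, -1, 1, -1) with hmB
  have cS : trn_cop N mS := trn_cop_one (by simp [hmS])
  have cA : trn_cop N mA := trn_cop_one (by simp [hmA])
  have cB : trn_cop N mB := trn_cop_one (by simp [hmB])
  have gS : ∀ x : PN N, g x + g (trn_act mS cS x) = 0 := by
    refine trn_ind ?_
    intro c d hu
    have h1 := htwo c d hu
    rw [← trn_ev_act g mS cS c d hu, ← trn_ev g c d hu]
    have e1 : c * mS.1 + d * mS.2.2.1 = d := by simp [hmS]
    have e2 : c * mS.2.1 + d * mS.2.2.2 = -c := by simp [hmS]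
    rw [e1, e2]
    exact h1
  have gT : ∀ x : PN N, g x + g (trn_act mA cA x) + g (trn_act mB cB x) = 0 := by
    refine trn_ind ?_
    intro c d hu
    have h1 := hthree c d hu
    rw [← trn_ev_act g mA cA c d hu, ← trn_ev_act g mB cB c d hu, ← trn_ev g c d hu]
    have e1 : c * mA.1 + d * mA.2.2.1 = c + d := by simp [hmA]
    have e2 : c * mA.2.1 + d * mA.2.2.2 = -c := by simp [hmA]
    have e3 : c * mB.1 + d * mB.2.2.1 = d := by simp [hmB]
    have e4 : c * mB.2.1 + d * mB.2.2.2 = -c - d := by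
      simp only [hmB]
      ring
    rw [e1, e2, e3, e4]
    exact h1
  have wS : ∀ c d : ℤ, Uni M c d → ev (trn_w M h g) c d + ev (trn_w M h g) d (-c) = 0 := by
    intro c d hu
    have e1 : c * mS.1 + d * mS.2.2.1 = d := by simp [hmS]
    have e2 : c * mS.2.1 + d * mS.2.2.2 = -c := by simp [hmS]
    have h1 := trn_ev_act (trn_w M h g) mS (trn_cop_mono h cS) c d hu
    rw [e1, e2, trn_w_act hRED h g mS cS] at h1
    rw [h1, trn_ev (trn_w M h g) c d hu]
    unfold trn_w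
    rw [← finsum_add_distrib (Set.toFinite _) (Set.toFinite _)]
    refine Eq.trans (finsum_congr ?_) finsum_zero
    intro x
    exact gS x.1
  have wT : ∀ c d : ℤ, Uni M c d → ev (trn_w M h g) c d + ev (trn_w M h g) (c + d) (-c) +
      ev (trn_w M h g) d (-c - d) = 0 := by
    intro c d hu
    have e1 : c * mA.1 + d * mA.2.2.1 = c + d := by simp [hmA]
    have e2 : c * mA.2.1 + d * mA.2.2.2 = -c := by simp [hmA]
    have e3 : c * mB.1 + d * mB.2.2.1 = d := by simp [hmB]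
    have e4 : c * mB.2.1 + d * mB.2.2.2 = -c - d := by
      simp only [hmB]
      ring
    have h1 := trn_ev_act (trn_w M h g) mA (trn_cop_mono h cA) c d hu
    have h2 := trn_ev_act (trn_w M h g) mB (trn_cop_mono h cB) c d hu
    rw [e1, e2, trn_w_act hRED h g mA cA] at h1
    rw [e3, e4, trn_w_act hRED h g mB cB] at h2
    rw [h1, h2, trn_ev (trn_w M h g) c d hu]
    unfold trn_w
    rw [← finsum_add_distrib (Set.toFinite _) (Set.toFinite _),
      ← finsum_add_distrib (Set.toFinite _) (Set.toFinite _)]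
    refine Eq.trans (finsum_congr ?_) finsum_zero
    intro x
    exact gT x.1
  have wH : ∀ l : ℕ, l.Prime → ¬ l ∣ N → HRow M l (a l) (trn_w M h g) := by
    intro l hl hlN c d hu
    have hco : Nat.Coprime l N := (Nat.Prime.coprime_iff_not_dvd hl).mpr hlN
    have hcop : ∀ m ∈ Sn l, trn_cop N ((m.1 : ℤ), (m.2.1 : ℤ), (m.2.2.1 : ℤ), (m.2.2.2 : ℤ)) := by
      intro m hm
      unfold Sn at hm
      obtain ⟨-, -, -, h5⟩ := Finset.mem_filter.1 hm
      unfold trn_cop
      have h1 : (m.1 : ℤ) * m.2.2.2 - m.2.1 * m.2.2.1 = l := by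
        have : (m.1 : ℤ) * m.2.2.2 = l + m.2.1 * m.2.2.1 := by exact_mod_cast h5
        linarith
      simp only
      rw [h1]
      exact Nat.isCoprime_iff_coprime.mpr hco
    have h1 : ∀ m ∈ Sn l, ev (trn_w M h g) (c * m.1 + d * m.2.2.1) (c * m.2.1 + d * m.2.2.2) =
        ∑ᶠ x : {x : PN N // pnf_red M h x = trn_cl M c d hu},
          ev g ((pnf_out x.1).1.1 * m.1 + (pnf_out x.1).1.2 * m.2.2.1)
            ((pnf_out x.1).1.1 * m.2.1 + (pnf_out x.1).1.2 * m.2.2.2) := by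
      intro m hm
      have h2 := trn_ev_act (trn_w M h g) ((m.1 : ℤ), (m.2.1 : ℤ), (m.2.2.1 : ℤ), (m.2.2.2 : ℤ))
        (trn_cop_mono h (hcop m hm)) c d hu
      rw [trn_w_act hRED h g ((m.1 : ℤ), (m.2.1 : ℤ), (m.2.2.1 : ℤ), (m.2.2.2 : ℤ)) (hcop m hm)] at h2
      simp only at h2
      rw [h2]
      refine finsum_congr fun x => ?_
      have h3 := trn_ev_act g ((m.1 : ℤ), (m.2.1 : ℤ), (m.2.2.1 : ℤ), (m.2.2.2 : ℤ))
        (hcop m hm) (pnf_out x.1).1.1 (pnf_out x.1).1.2 (pnf_out x.1).2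
      simp only at h3
      rw [h3]
      have h4 : trn_cl N (pnf_out x.1).1.1 (pnf_out x.1).1.2 (pnf_out x.1).2 = x.1 :=
        pnf_out_spec x.1
      rw [h4]
    rw [Finset.sum_congr rfl h1, ← finsum_sum_comm _ _ (fun _ _ => Set.toFinite _),
      trn_ev _ c d hu]
    unfold trn_w
    rw [← smul_eq_mul, smul_finsum]
    refine finsum_congr fun x => ?_
    have h2 := hrow l hl hlN (pnf_out x.1).1.1 (pnf_out x.1).1.2 (pnf_out x.1).2
    rw [h2, trn_ev g _ _ (pnf_out x.1).2, smul_eq_mul]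
    have h4 : trn_cl N (pnf_out x.1).1.1 (pnf_out x.1).1.2 (pnf_out x.1).2 = x.1 :=
      pnf_out_spec x.1
    rw [h4]
  obtain ⟨b, hb, hbl⟩ := hSYM M hM (trn_w M h g) wS wT
  have hdvd : ∀ l : ℕ, ¬ l ∣ N → ¬ l ∣ M := fun l hl hlM => hl (hlM.trans h)
  have hb0 : ∀ n, b n = 0 := by
    refine hnf.new M hM h hMN b hb ?_
    intro l hl hlN n
    have := (hbl l (a l) hl (hdvd l hlN) (wH l hl hlN)).1 n
    simpa using this
  obtain ⟨l, hl1, hl⟩ := Nat.exists_infinite_primes (N + 1)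
  have hlN : ¬ l ∣ N := fun hd => by
    have := Nat.le_of_dvd (by omega) hd
    omega
  have hstr : ‖((a l : ℤ) : ℂ)‖ < l + 1 := by
    refine hSTRICT N l (fun k => (a k : ℂ)) (a l : ℂ) hN hl hlN hnf.cusp ⟨1, ?_⟩ ?_
    · simp [hnf.one]
    · intro n
      have := hnf.hecke l hl hlN n
      unfold Tl
      have h2 := congrArg (fun z : ℤ => (z : ℂ)) this
      push_cast at h2
      rw [← h2]
  have hne : ((a l : ℤ) : ℝ) ^ 2 ≠ ((l : ℝ) + 1) ^ 2 := by
    have h1 : |((a l : ℤ) : ℝ)| < l + 1 := by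
      have : ‖((a l : ℤ) : ℂ)‖ = |((a l : ℤ) : ℝ)| := by
        rw [Complex.norm_intCast]
      rw [← this]
      exact hstr
    have h2 := sq_lt_sq' (abs_lt.1 h1).1 (abs_lt.1 h1).2
    exact ne_of_lt h2
  have hw := (hbl l (a l) hl (hdvd l hlN) (wH l hl hlN)).2 hne
  change trn_w M h g y = 0
  revert y
  refine trn_ind ?_
  intro c d hu
  rw [← trn_ev (trn_w M h g) c d hu]
  obtain ⟨p, x, q, y, hdet, hq, hy⟩ := vf_red hSURJ M hM c d hu
  rw [vf_ev_congr _ hq hy, hw p x q y hdet, trn_FC_zero b hb0, trn_FC_zero b hb0, sub_self,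
    Complex.zero_re]

theorem st_TRN (hSYM : ST_SYM) (hSTRICT : ST_STRICT) (hFLIM : ST_FLIM) (hTF : ST_TF)
    (hTILE : ST_TILE) (hSURJ : ST_SURJ) (hRED : ST_RED) : ST_TRN := by
  intro N a v hN hnf hv S hS
  set b : ℕ → ℂ := fun k => (a k : ℂ) with hb
  obtain ⟨hlim, hhom, heqv, hper, hconj⟩ := hFLIM N b hN hnf.cusp
  -- complex relations
  have htwo : ∀ c d : ℤ, Uni N c d → ev v c d + ev v d (-c) = 0 := by
    intro c d hcd
    obtain ⟨p, x, q, y, hdet, hq, hy⟩ := vf_red hSURJ N hN c d hcd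
    rw [vf_ev_congr v hq hy, vf_ev_congr v (c := y) (d := -q) (c' := d) (d' := -c) hy (by
      have : -c - -q = -(c - q) := by ring
      rw [this]; exact (dvd_neg).mpr hq)]
    have h1 := hv p x q y hdet
    have h2 := hv x (-p) y (-q) (by linarith)
    have h3 : FC b (-p) (-q) = FC b p q := by
      have := hhom (-1) p q (by norm_num)
      simpa using this
    rw [h1, h2, h3]; ring
  have hthree : ∀ c d : ℤ, Uni N c d → ev v c d + ev v (c + d) (-c) + ev v d (-c - d) = 0 := by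
    intro c d hcd
    obtain ⟨p, x, q, y, hdet, hq, hy⟩ := vf_red hSURJ N hN c d hcd
    rw [vf_ev_congr v hq hy, vf_ev_congr v (c := q + y) (d := -q) (c' := c + d) (d' := -c) (by
      have : c + d - (q + y) = (c - q) + (d - y) := by ring
      rw [this]; exact dvd_add hq hy) (by
      have : -c - -q = -(c - q) := by ring
      rw [this]; exact (dvd_neg).mpr hq),
      vf_ev_congr v (c := y) (d := -q - y) (c' := d) (d' := -c - d) hy (by
      have : -c - d - (-q - y) = -((c - q) + (d - y)) := by ring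
      rw [this]; exact (dvd_neg).mpr (dvd_add hq hy))]
    have h1 := hv p x q y hdet
    have h2 := hv (p + x) (-p) (q + y) (-q) (by linarith)
    have h3 := hv x (-p - x) y (-q - y) (by linarith)
    have h4 : FC b (-p) (-q) = FC b p q := by
      have := hhom (-1) p q (by norm_num)
      simpa using this
    have h5 : FC b (-p - x) (-q - y) = FC b (p + x) (q + y) := by
      have := hhom (-1) (p + x) (q + y) (by norm_num)
      rw [← this]; congr 1 <;> ring
    rw [h1, h2, h3, h4, h5]; ring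
  have hrow : ∀ l : ℕ, l.Prime → ¬ l ∣ N →
      (∀ c d : ℤ, Uni N c d → ∑ m ∈ Sn l, ev v (c * m.1 + d * m.2.2.1) (c * m.2.1 + d * m.2.2.2)
        = ((a l : ℤ) : ℂ) * ev v c d) := by
    intro l hl hlN
    have hco : Nat.Coprime l N := (Nat.Prime.coprime_iff_not_dvd hl).mpr hlN
    refine vf_HRow hSURJ hTILE N l hN hl.one_lt.le hco (FC b) hhom v hv _ ?_
    exact vf_hecke_cusp hFLIM N l b _ hN hl.one_lt.le hnf.cusp
      (vf_TFs hTF N l a hN hl.one_lt.le hnf.cusp (a l) (vf_coef_l N a hnf l hl hlN))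
  have hM : ∀ q : ℕ, q.Prime → q ∣ N → 1 ≤ N / q ∧ N / q < N := fun q hq hqN =>
    ⟨Nat.div_pos (Nat.le_of_dvd (by omega) hqN) hq.pos, Nat.div_lt_self (by omega) hq.one_lt⟩
  constructor
  · intro q hqS hqN h y
    obtain ⟨hM1, hM2⟩ := hM q (hS q hqS) hqN
    refine trn_fib hSURJ hSYM hSTRICT hRED N a hN hnf (fun x => (v x).re) ?_ ?_ ?_
      (N / q) h hM1 hM2 y
    · intro c d h
      rw [vf_ev_re, vf_ev_re, ← Complex.add_re, htwo c d h, Complex.zero_re]
    · intro c d h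
      rw [vf_ev_re, vf_ev_re, vf_ev_re, ← Complex.add_re, ← Complex.add_re, hthree c d h,
        Complex.zero_re]
    · intro l hl hlN c d h
      simp only [vf_ev_re]
      rw [← Complex.re_sum, hrow l hl hlN c d h, vf_re_mul]
  · intro q hqS hqN h y
    obtain ⟨hM1, hM2⟩ := hM q (hS q hqS) hqN
    refine trn_fib hSURJ hSYM hSTRICT hRED N a hN hnf (fun x => (v x).im) ?_ ?_ ?_
      (N / q) h hM1 hM2 y
    · intro c d h
      rw [vf_ev_im, vf_ev_im, ← Complex.add_im, htwo c d h, Complex.zero_im]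
    · intro c d h
      rw [vf_ev_im, vf_ev_im, vf_ev_im, ← Complex.add_im, ← Complex.add_im, hthree c d h,
        Complex.zero_im]
    · intro l hl hlN c d h
      simp only [vf_ev_im]
      rw [← Complex.im_sum, hrow l hl hlN c d h, vf_im_mul]

end Pool.Agent.Helper96.MP
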